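import Pool.Agent.Lib.MP_efa090_mp.CFin

/-! An upper bound for the sharp constant in the Cwikel–Lieb–Rozenblum inequality, all dimensions
`d ≥ 3`, all potentials. The constant is the least upper bound of the set in the frozen statement. -/

open MeasureTheory

namespace Pool.Agent.Results.MP_efa090_mp.CLRConstant

theorem result : ∀ d : ℕ, 3 ≤ d → ∃ C : ℝ,
    IsLUB {r : ℝ | ∃ W : EuclideanSpace ℝ (Fin d) → ℝ,
          ∃ S : Submodule ℝ (EuclideanSpace ℝ (Fin d) → ℝ),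
          Measurable W ∧ (∀ x, 0 ≤ W x) ∧
          Integrable (fun x => W x ^ ((d : ℝ) / 2)) ∧
          0 < ∫ x, W x ^ ((d : ℝ) / 2) ∧
          FiniteDimensional ℝ S ∧
          (∀ u ∈ S, ContDiff ℝ ((⊤ : ℕ∞) : WithTop ℕ∞) u ∧ HasCompactSupport u) ∧
          (∀ u ∈ S, u ≠ 0 → ∫ x, ‖fderiv ℝ u x‖ ^ 2 < ∫ x, W x * u x ^ 2) ∧
          r = (Module.finrank ℝ S : ℝ) / ∫ x, W x ^ ((d : ℝ) / 2)} C ∧
    (∀ t : ℝ, 0 < t → C ≤ (4 * Real.pi) ^ (-(d : ℝ) / 2) / Real.Gamma (1 + (d : ℝ) / 2) *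
      (8 * Real.exp ((d : ℝ) * t / 2) / (d * ((d : ℝ) ^ 2 - 4) * (Real.sinh t - t)))) ∧
    C ≤ (4 * Real.pi) ^ (-(d : ℝ) / 2) / Real.Gamma (1 + (d : ℝ) / 2) *
      (2 * Real.exp 3 / 9 * ((d : ℝ) ^ 2 / ((d : ℝ) ^ 2 - 4))) ∧
    (d = 3 → C ≤ (4 * Real.pi) ^ (-(d : ℝ) / 2) / Real.Gamma (1 + (d : ℝ) / 2) * 6.365) ∧
    (d = 4 → C ≤ (4 * Real.pi) ^ (-(d : ℝ) / 2) / Real.Gamma (1 + (d : ℝ) / 2) * 5.27) ∧
    (d = 5 → C ≤ (4 * Real.pi) ^ (-(d : ℝ) / 2) / Real.Gamma (1 + (d : ℝ) / 2) * 4.927) := by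
  intro d hd
  have hd' : (3 : ℝ) ≤ d := by exact_mod_cast hd
  set L : ℝ := (4 * Real.pi) ^ (-(d : ℝ) / 2) / Real.Gamma (1 + (d : ℝ) / 2) with hL
  have hL0 : 0 < L := by
    have : 0 < Real.Gamma (1 + (d : ℝ) / 2) := Real.Gamma_pos_of_pos (by linarith)
    positivity
  set A : Set ℝ := {r : ℝ | ∃ W : EuclideanSpace ℝ (Fin d) → ℝ,
          ∃ S : Submodule ℝ (EuclideanSpace ℝ (Fin d) → ℝ),
          Measurable W ∧ (∀ x, 0 ≤ W x) ∧
          Integrable (fun x => W x ^ ((d : ℝ) / 2)) ∧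
          0 < ∫ x, W x ^ ((d : ℝ) / 2) ∧
          FiniteDimensional ℝ S ∧
          (∀ u ∈ S, ContDiff ℝ ((⊤ : ℕ∞) : WithTop ℕ∞) u ∧ HasCompactSupport u) ∧
          (∀ u ∈ S, u ≠ 0 → ∫ x, ‖fderiv ℝ u x‖ ^ 2 < ∫ x, W x * u x ^ 2) ∧
          r = (Module.finrank ℝ S : ℝ) / ∫ x, W x ^ ((d : ℝ) / 2)} with hA
  have hub : ∀ t : ℝ, 0 < t → L * CLRT.kap d t ∈ upperBounds A := by
    rintro t ht r ⟨W, S, hW, hW0, hWi, hpos, hfin, hSc, hSn, rfl⟩
    rw [div_le_iff₀ hpos]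
    exact CLRT.count_kap hd W S hW hW0 hWi hfin hSc hSn t ht
  have hne : A.Nonempty := by
    have hpow : (fun x : EuclideanSpace ℝ (Fin d) =>
        ((Metric.ball (0 : EuclideanSpace ℝ (Fin d)) 1).indicator (fun _ => (1 : ℝ)) x) ^
          ((d : ℝ) / 2)) =
        (Metric.ball (0 : EuclideanSpace ℝ (Fin d)) 1).indicator (fun _ => (1 : ℝ)) := by
      funext x
      by_cases hx : x ∈ Metric.ball (0 : EuclideanSpace ℝ (Fin d)) 1
      · simp [Set.indicator_of_mem hx]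
      · rw [Set.indicator_of_notMem hx, Real.zero_rpow (by positivity)]
    refine ⟨0, (Metric.ball 0 1).indicator (fun _ => (1 : ℝ)), ⊥,
      measurable_const.indicator measurableSet_ball, fun x => ?_, ?_, ?_, inferInstance, ?_, ?_, ?_⟩
    · exact Set.indicator_nonneg (fun _ _ => zero_le_one) x
    · rw [hpow, integrable_indicator_iff measurableSet_ball]
      exact integrableOn_const measure_ball_lt_top.ne
    · rw [hpow, integral_indicator measurableSet_ball, setIntegral_const, smul_eq_mul, mul_one]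
      exact ENNReal.toReal_pos (Metric.measure_ball_pos _ _ one_pos).ne' measure_ball_lt_top.ne
    · intro u hu
      rw [Submodule.mem_bot] at hu
      subst hu
      exact ⟨contDiff_const, HasCompactSupport.zero⟩
    · intro u hu hu0
      exact absurd (Submodule.mem_bot ℝ |>.mp hu) hu0
    · simp
  have hlub : IsLUB A (sSup A) := isLUB_csSup hne ⟨_, hub 1 one_pos⟩
  refine ⟨sSup A, hlub, ?_, ?_, ?_, ?_, ?_⟩
  · intro t ht
    exact hlub.2 (hub t ht)
  · refine (hlub.2 (hub (6 / d) (by positivity))).trans ?_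
    exact mul_le_mul_of_nonneg_left (CLRT.kap_closed hd) hL0.le
  · rintro rfl
    refine (hlub.2 (hub _ ?_)).trans (mul_le_mul_of_nonneg_left CLRT.kap_three hL0.le)
    exact mul_pos two_pos (Real.log_pos (by norm_num))
  · rintro rfl
    refine (hlub.2 (hub _ ?_)).trans (mul_le_mul_of_nonneg_left CLRT.kap_four hL0.le)
    exact mul_pos two_pos (Real.log_pos (by norm_num))
  · rintro rfl
    refine (hlub.2 (hub _ ?_)).trans (mul_le_mul_of_nonneg_left CLRT.kap_five hL0.le)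
    exact mul_pos two_pos (Real.log_pos (by norm_num))

end Pool.Agent.Results.MP_efa090_mp.CLRConstant
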