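import Pool.Agent.CLR3.Radial

/-! Dimension three, radial potentials: the frozen statement of the problem for `d = 3` with the
additional requirement that the potential is radial. -/

open MeasureTheory

namespace Pool.Agent.Results.MP_efa090_mp.RadialThree

theorem result :
    IsLUB (Set.range (fun L : ℕ =>
        ((Nat.factorial (L + 3 - 1) : ℝ) / (Nat.factorial L : ℝ)) * ((L : ℝ) + (3 : ℝ) / 2) /
          (((L : ℝ) + ((3 : ℝ) - 2) / 2) * ((L : ℝ) + (3 : ℝ) / 2)) ^ ((3 : ℝ) / 2)))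
      (8 / Real.sqrt 3) ∧
    IsLUB {r : ℝ | ∃ W : EuclideanSpace ℝ (Fin 3) → ℝ,
          ∃ S : Submodule ℝ (EuclideanSpace ℝ (Fin 3) → ℝ),
          Measurable W ∧ (∀ x y, ‖x‖ = ‖y‖ → W x = W y) ∧ (∀ x, 0 ≤ W x) ∧
          Integrable (fun x => W x ^ ((3 : ℝ) / 2)) ∧
          0 < ∫ x, W x ^ ((3 : ℝ) / 2) ∧
          FiniteDimensional ℝ S ∧
          (∀ u ∈ S, ContDiff ℝ ((⊤ : ℕ∞) : WithTop ℕ∞) u ∧ HasCompactSupport u) ∧
          (∀ u ∈ S, u ≠ 0 → ∫ x, ‖fderiv ℝ u x‖ ^ 2 < ∫ x, W x * u x ^ 2) ∧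
          r = (Module.finrank ℝ S : ℝ) / ∫ x, W x ^ ((3 : ℝ) / 2)}
        ((4 * Real.pi) ^ (-(3 : ℝ) / 2) / Real.Gamma (1 + (3 : ℝ) / 2) * (8 / Real.sqrt 3)) := by
  refine ⟨Pool.Agent.CLR3.aL_sup, ?_, ?_⟩
  · rintro r ⟨W, S, hWm, hrad, hW0, hWi, hpos, hfin, hS, hneg, rfl⟩
    rw [Pool.Agent.CLR3.const_value, div_le_iff₀ hpos]
    set e : EuclideanSpace ℝ (Fin 3) := EuclideanSpace.single 0 1 with he
    have hen : ‖e‖ = 1 := by rw [he]; simp
    set w : ℝ → ℝ := fun ρ => W (ρ • e) with hw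
    have hwm : Measurable w := hWm.comp (by fun_prop)
    have hWw : ∀ x, w ‖x‖ = W x := fun x => hrad _ _ (by rw [norm_smul, hen]; simp)
    have h := Pool.Agent.CLR3.radial_clr w hwm (fun ρ => hW0 _) (by simpa only [hWw] using hWi)
      S hS (by simpa only [hWw] using hneg)
    simpa only [hWw] using h
  · intro b hb
    rw [Pool.Agent.CLR3.const_value]
    by_contra hcon
    push Not at hcon
    obtain ⟨w, S, hwm, hw0, hwi, hpos, hfin, hS, hneg, hlt⟩ :=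
      Pool.Agent.CLR3.radial_sharp b hcon
    have := hb ⟨fun x => w ‖x‖, S, hwm.comp measurable_norm, fun x y hxy => by
      simp only [hxy], fun x => hw0 _, hwi, hpos, hfin, hS, hneg, rfl⟩
    linarith

end Pool.Agent.Results.MP_efa090_mp.RadialThree
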